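import Pool.Agent.H7.KR.Stmts

/-!
# Row KAP of the board `kr`: cliques with a vertex in `U`
-/

set_option autoImplicit false

open Finset

namespace Pool.KR

open Pool.Agent.H23.KT Pool.Agent.H46.KW Pool.KQ

theorem kap : KAPStmt := by
  intro V _ G p d W U hUW hd
  have key : ∀ (t : ℕ) (F : Finset (Finset V)) (X : V → Finset V),
      (∀ T ∈ F, ∃ z ∈ U, X z ⊆ T ∧ T \ X z ⊆ nb G W z ∧ T.card = t + (X z).card) →
      (F.card : ℝ) ≤ U.card * d ^ t := by
    intro t F X hF
    classical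
    have h1 : F ⊆ U.biUnion (fun z => F.filter (fun T => X z ⊆ T ∧ T \ X z ⊆ nb G W z ∧
        T.card = t + (X z).card)) := by
      intro T hT
      obtain ⟨z, hz, hT'⟩ := hF T hT
      rw [mem_biUnion]
      exact ⟨z, hz, mem_filter.2 ⟨hT, hT'⟩⟩
    have h2 : F.card ≤ ∑ z ∈ U, (nb G W z).card ^ t := by
      refine (card_le_card h1).trans (card_biUnion_le.trans (sum_le_sum ?_))
      intro z _
      refine (card_le_choose' (X := X z) (S := nb G W z) (t := t) ?_).trans
        (Nat.choose_le_pow _ _)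
      intro T hT
      exact (mem_filter.1 hT).2
    calc (F.card : ℝ) ≤ ((∑ z ∈ U, (nb G W z).card ^ t : ℕ) : ℝ) := by exact_mod_cast h2
      _ = ∑ z ∈ U, ((nb G W z).card : ℝ) ^ t := by push_cast; rfl
      _ ≤ ∑ _z ∈ U, d ^ t := by
          refine sum_le_sum fun z hz => ?_
          exact pow_le_pow_left₀ (Nat.cast_nonneg _) (hd z hz) t
      _ = U.card * d ^ t := by rw [sum_const, nsmul_eq_mul]
  have hex : ∀ L : Finset V, ¬ Disjoint L U → ∃ z, z ∈ L ∧ z ∈ U := by
    intro L hL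
    rw [Finset.not_disjoint_iff] at hL
    exact hL
  constructor
  · apply key (p + 2) _ (fun z => {z})
    intro L hL
    rw [mem_filter, mem_clq] at hL
    obtain ⟨⟨hLW, hLc, hLcl⟩, hLU⟩ := hL
    obtain ⟨z, hzL, hzU⟩ := hex L hLU
    refine ⟨z, hzU, singleton_subset_iff.2 hzL, ?_, ?_⟩
    · intro y hy
      rw [mem_sdiff, mem_singleton] at hy
      rw [mem_nb]
      exact ⟨hLW hy.1, hLcl (mem_coe.2 hzL) (mem_coe.2 hy.1) (fun h => hy.2 h.symm)⟩
    · rw [card_singleton, hLc]
  · intro x hx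
    apply key (p + 1) _ (fun z => {z, x})
    intro L hL
    rw [mem_filter, mem_clq] at hL
    obtain ⟨⟨hLW, hLc, hLcl⟩, hxL, hLU⟩ := hL
    obtain ⟨z, hzL, hzU⟩ := hex L hLU
    have hzx : z ≠ x := by
      rintro rfl
      exact hx hzU
    refine ⟨z, hzU, ?_, ?_, ?_⟩
    · intro y hy
      rw [mem_insert, mem_singleton] at hy
      rcases hy with rfl | rfl
      · exact hzL
      · exact hxL
    · intro y hy
      rw [mem_sdiff, mem_insert, mem_singleton, not_or] at hy
      rw [mem_nb]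
      exact ⟨hLW hy.1, hLcl (mem_coe.2 hzL) (mem_coe.2 hy.1) (fun h => hy.2.1 h.symm)⟩
    · rw [card_pair hzx, hLc]

end Pool.KR
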